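import Pool.Agent.Q177.TC.Loc1
import Pool.Agent.Q130.TC.Stm

/-!
Replacing a density in a disc: lower bound for the soft capacity.
-/

set_option autoImplicit false

namespace Pool.Agent.Q177.TC

open MeasureTheory Set Metric Filter Topology
open scoped ComplexConjugate
open Pool.Agent.H352R3.SA (Den pot LK Gam pot_integrable pot_continuous anti)
open Pool.Agent.Q130.TC

theorem denC {g : ℂ → ℝ} (hg : Den g) {F : ℂ → ℂ} (hF : Continuous F) :
    Continuous (fun z => (g z : ℂ) * F z) ∧ HasCompactSupport (fun z => (g z : ℂ) * F z) :=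
  ⟨(Complex.continuous_ofReal.comp hg.cont).mul hF,
    (hg.supp.comp_left (g := fun t : ℝ => (t : ℂ)) Complex.ofReal_zero).mul_right⟩

theorem denR {g : ℂ → ℝ} (hg : Den g) {F : ℂ → ℝ} (hF : Continuous F) :
    Integrable (fun z => g z * F z) :=
  (hg.cont.mul hF).integrable_of_hasCompactSupport hg.supp.mul_right

theorem pot_add {φ ψ : ℂ → ℂ} (hφ : Continuous φ) (cφ : HasCompactSupport φ) (hψ : Continuous ψ)
    (cψ : HasCompactSupport ψ) (z : ℂ) :
    pot (fun w => φ w + ψ w) z = pot φ z + pot ψ z := by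
  unfold pot
  rw [← integral_add (pot_integrable hφ cφ z) (pot_integrable hψ cψ z)]
  refine integral_congr_ae (Eventually.of_forall fun w => ?_)
  simp only
  ring

theorem pot_sub {φ ψ : ℂ → ℂ} (hφ : Continuous φ) (cφ : HasCompactSupport φ) (hψ : Continuous ψ)
    (cψ : HasCompactSupport ψ) (z : ℂ) :
    pot (fun w => φ w - ψ w) z = pot φ z - pot ψ z := by
  unfold pot
  rw [← integral_sub (pot_integrable hφ cφ z) (pot_integrable hψ cψ z)]
  refine integral_congr_ae (Eventually.of_forall fun w => ?_)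
  simp only
  ring

theorem two_le {H : ℂ → ℝ} {y : ℂ} {r δ : ℝ} (hc : Continuous H) (hs : HasCompactSupport H)
    (h0 : ∀ z, 0 ≤ H z) (hr : 0 < r) (hδ : 0 ≤ δ)
    (hH : ∀ ρ, 4 * r ≤ ρ → ∫ z in ball y ρ, H z ≤ δ * ρ) {f : ℂ → ℝ} (hf : ∀ z, 0 ≤ f z)
    {c1 c2 : ℝ} (hc2 : 0 ≤ c2) (h1 : ∀ z, ‖z - y‖ < 4 * r → f z ≤ c1 * H z)
    (h2 : ∀ z, 4 * r ≤ ‖z - y‖ → f z ≤ c2 * (H z / ‖z - y‖ ^ 2)) :
    ∫ z, f z ≤ c1 * (∫ z in ball y (4 * r), H z) + c2 * (δ / r) := by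
  have hHi : Integrable H := hc.integrable_of_hasCompactSupport hs
  have hb1 : Integrable ((ball y (4 * r)).indicator fun z => c1 * H z) :=
    (hHi.const_mul c1).indicator measurableSet_ball
  have hb2 : Integrable (({w | 4 * r ≤ ‖w - y‖} : Set ℂ).indicator
      fun z => c2 * (H z / ‖z - y‖ ^ 2)) :=
    (integrable_indicator_iff meas_far).2 ((dyi hc hs h0 hr).const_mul c2)
  have h3 : ∫ z, f z ≤ ∫ z, ((ball y (4 * r)).indicator (fun z => c1 * H z) z +
      ({w | 4 * r ≤ ‖w - y‖} : Set ℂ).indicator (fun z => c2 * (H z / ‖z - y‖ ^ 2)) z) := by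
    apply integral_mono_of_nonneg (Eventually.of_forall hf) (hb1.add hb2)
    refine Eventually.of_forall fun z => ?_
    by_cases hz : ‖z - y‖ < 4 * r
    · have e1 : z ∈ ball y (4 * r) := by rwa [mem_ball, dist_eq_norm]
      have e2 : z ∉ {w : ℂ | 4 * r ≤ ‖w - y‖} := not_le.mpr hz
      rw [Pi.add_apply]
      rw [Set.indicator_of_mem e1, Set.indicator_of_notMem e2, add_zero]
      exact h1 z hz
    · push Not at hz
      have e1 : z ∉ ball y (4 * r) := by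
        rw [mem_ball, dist_eq_norm]
        exact not_lt.mpr hz
      have e2 : z ∈ {w : ℂ | 4 * r ≤ ‖w - y‖} := hz
      rw [Pi.add_apply]
      rw [Set.indicator_of_notMem e1, Set.indicator_of_mem e2, zero_add]
      exact h2 z hz
  rw [integral_add hb1 hb2, integral_indicator measurableSet_ball, integral_indicator meas_far,
    integral_const_mul, integral_const_mul] at h3
  have h4 := mul_le_mul_of_nonneg_left (dy hc hs h0 hr hδ hH) hc2
  linarith

theorem re_int {f : ℂ → ℂ} (hf : Integrable f) : ∫ z, (f z).re = (∫ z, f z).re :=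
  Complex.reCLM.integral_comp_comm hf

theorem core {h g : ℂ → ℝ} {L K Lg Kg : ℂ → ℂ} {Gh Gg : ℝ} (hh : Den h) (hg : Den g)
    (cL : Continuous L) (cK : Continuous K) (cLg : Continuous Lg) (cKg : Continuous Kg)
    (eL : ∀ z, L z = 1 - pot (fun w => (h w : ℂ) * conj (K w)) z)
    (eK : ∀ z, K z = - pot (fun w => (h w : ℂ) * conj (L w)) z)
    (eKg : ∀ z, Kg z = - pot (fun w => (g w : ℂ) * conj (Lg w)) z)
    (eG : Gh = (∫ z, h z * ‖L z‖ ^ 2) + ∫ z, h z * ‖K z‖ ^ 2)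
    (eGc : ∫ z, (h z : ℂ) * conj (L z) = (Gh : ℂ))
    (eGg : Gg = (∫ z, g z * ‖Lg z‖ ^ 2) + ∫ z, g z * ‖Kg z‖ ^ 2)
    (eGcg : ∫ z, (g z : ℂ) * conj (Lg z) = (Gg : ℂ)) (hGgm : Gg ≤ ∫ z, g z)
    {y : ℂ} {r δ₁ δ₂ : ℝ} (hr : 0 < r) (hδ1 : 0 ≤ δ₁) (hδ1' : δ₁ ≤ 1) (hδ2 : 0 ≤ δ₂)
    (hδ2' : δ₂ ≤ 1)
    (hHM : ∀ ρ, 4 * r ≤ ρ → ∫ z in ball y ρ, h z * (1 + ‖L z‖ ^ 2 + ‖K z‖ ^ 2) ≤ δ₁ * ρ)
    (hFK : ‖far (fun w => (h w : ℂ) * conj (L w)) y r y‖ ≤ δ₂)
    (hFL : ‖far (fun w => (h w : ℂ) * conj (K w)) y r y‖ ≤ δ₂)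
    (hgs : ∀ z, g z ≠ 0 → ‖z - y‖ ≤ r / 2) (hgm : ∫ z, g z ≤ 4 * r) :
    Gh + Gg - 1000 * (δ₁ + δ₂) * (∫ z, g z) -
      1000 * (∫ z in ball y (4 * r), h z * (1 + ‖L z‖ ^ 2 + ‖K z‖ ^ 2)) ≤
    2 * (∫ z, (((1 - ch y r z : ℝ) : ℂ) * ((h z : ℂ) * conj (L z)) +
        (g z : ℂ) * conj (Lg z))).re -
      (∫ z, ((1 - ch y r z) * (h z * ‖L z‖ ^ 2) + g z * ‖Lg z‖ ^ 2)) -
      ∫ z, ‖pot (fun w => ((1 - ch y r w : ℝ) : ℂ) * ((h w : ℂ) * conj (L w)) +
        (g w : ℂ) * conj (Lg w)) z‖ ^ 2 * ((1 - ch y r z) * h z + g z) := by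
  -- names
  obtain ⟨φL, hφLd⟩ : ∃ φ : ℂ → ℂ, φ = fun w => (h w : ℂ) * conj (L w) := ⟨_, rfl⟩
  obtain ⟨φK, hφKd⟩ : ∃ φ : ℂ → ℂ, φ = fun w => (h w : ℂ) * conj (K w) := ⟨_, rfl⟩
  obtain ⟨φg, hφgd⟩ : ∃ φ : ℂ → ℂ, φ = fun w => (g w : ℂ) * conj (Lg w) := ⟨_, rfl⟩
  obtain ⟨H, hHd⟩ : ∃ H : ℂ → ℝ, H = fun z => h z * (1 + ‖L z‖ ^ 2 + ‖K z‖ ^ 2) := ⟨_, rfl⟩
  have vφL : ∀ w, (h w : ℂ) * conj (L w) = φL w := fun w => by rw [hφLd]
  have vφK : ∀ w, (h w : ℂ) * conj (K w) = φK w := fun w => by rw [hφKd]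
  have vφg : ∀ w, (g w : ℂ) * conj (Lg w) = φg w := fun w => by rw [hφgd]
  have vH : ∀ w, h w * (1 + ‖L w‖ ^ 2 + ‖K w‖ ^ 2) = H w := fun w => by rw [hHd]
  have c1 : Continuous φL ∧ HasCompactSupport φL := by
    rw [hφLd]; exact denC hh (Complex.continuous_conj.comp cL)
  have c2 : Continuous φK ∧ HasCompactSupport φK := by
    rw [hφKd]; exact denC hh (Complex.continuous_conj.comp cK)
  have c3 : Continuous φg ∧ HasCompactSupport φg := by
    rw [hφgd]; exact denC hg (Complex.continuous_conj.comp cLg)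
  have hHc : Continuous H := by
    rw [hHd]
    exact hh.cont.mul ((continuous_const.add (cL.norm.pow 2)).add (cK.norm.pow 2))
  have hHs : HasCompactSupport H := by
    rw [hHd]
    exact hh.supp.mul_right
  have nφL : ∀ w, ‖φL w‖ = h w * ‖L w‖ := by
    intro w
    rw [← vφL, norm_mul, Complex.norm_real, Real.norm_eq_abs, abs_of_nonneg (hh.nonneg w),
      RCLike.norm_conj]
  have nφK : ∀ w, ‖φK w‖ = h w * ‖K w‖ := by
    intro w
    rw [← vφK, norm_mul, Complex.norm_real, Real.norm_eq_abs, abs_of_nonneg (hh.nonneg w),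
      RCLike.norm_conj]
  have nφg : ∀ w, ‖φg w‖ = g w * ‖Lg w‖ := by
    intro w
    rw [← vφg, norm_mul, Complex.norm_real, Real.norm_eq_abs, abs_of_nonneg (hg.nonneg w),
      RCLike.norm_conj]
  simp only [vφL, vφK, vφg, vH] at eL eK eKg eGc eGcg hHM hFK hFL ⊢
  clear hφLd hφKd hφgd hHd
  have hH0 : ∀ z, 0 ≤ H z := fun z => by
    rw [← vH]
    exact mul_nonneg (hh.nonneg z) (by positivity)
  have bL : ∀ w, ‖φL w‖ ≤ H w := by
    intro w
    rw [nφL, ← vH]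
    apply mul_le_mul_of_nonneg_left _ (hh.nonneg w)
    nlinarith [sq_nonneg (‖L w‖ - 1), sq_nonneg ‖K w‖, norm_nonneg (L w)]
  have bK : ∀ w, ‖φK w‖ ≤ H w := by
    intro w
    rw [nφK, ← vH]
    apply mul_le_mul_of_nonneg_left _ (hh.nonneg w)
    nlinarith [sq_nonneg (‖K w‖ - 1), sq_nonneg ‖L w‖, norm_nonneg (K w)]
  set m := ∫ z, g z with hm
  set A := ∫ z in ball y (4 * r), H z with hA
  have hA0 : 0 ≤ A := setIntegral_nonneg measurableSet_ball fun z _ => hH0 z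
  have hA4 : A ≤ 4 * δ₁ * r := by
    have := hHM (4 * r) le_rfl
    linarith
  have hm0 : 0 ≤ m := integral_nonneg hg.nonneg
  -- the cut-off function
  have cχ := ch_cont y r
  have χ0 := ch_nonneg y r
  have χ1 := ch_le_one y r
  have χz : ∀ z, 4 * r ≤ ‖z - y‖ → ch y r z = 0 := fun z hz => ch_zero hr (by linarith)
  have χo : ∀ z, ‖z - y‖ < r → ch y r z = 1 := fun z hz => ch_one hr hz.le
  have e_ext := fun {φ : ℂ → ℂ} (a : Continuous φ) (b : HasCompactSupport φ)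
    (c : ∀ z, ‖φ z‖ ≤ H z) (d : ‖far φ y r y‖ ≤ δ₂) {z : ℂ} (hz : ‖z - y‖ ≤ r / 2) =>
    ext_le hHc hHs hH0 hr hδ1 hHM a b c d hz
  have e_comm := fun {φ : ℂ → ℂ} (a : Continuous φ) (b : HasCompactSupport φ)
    (c : ∀ z, ‖φ z‖ ≤ H z) (d : ‖far φ y r y‖ ≤ δ₂) (z : ℂ) =>
    comm_le hHc hHs hH0 hr hδ1 hHM a b c d hδ2 z
  have e_out := fun {φ : ℂ → ℂ} (a : Continuous φ) (b : HasCompactSupport φ)
    (c : ∀ z, ‖φ z‖ ≤ H z) {z : ℂ} (hz : 4 * r ≤ ‖z - y‖) =>
    out_le hHc hHs hH0 hr a b c hz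
  have e_two := fun {f : ℂ → ℝ} (hf : ∀ z, 0 ≤ f z) {c1 c2 : ℝ} (hc2 : 0 ≤ c2)
    (h1 : ∀ z, ‖z - y‖ < 4 * r → f z ≤ c1 * H z)
    (h2 : ∀ z, 4 * r ≤ ‖z - y‖ → f z ≤ c2 * (H z / ‖z - y‖ ^ 2)) =>
    two_le hHc hHs hH0 hr hδ1 hHM hf hc2 h1 h2
  generalize ch y r = χ at *
  have cχC : Continuous (fun w => ((χ w : ℝ) : ℂ)) := Complex.continuous_ofReal.comp cχ
  have cχC' : Continuous (fun w => ((1 - χ w : ℝ) : ℂ)) :=
    Complex.continuous_ofReal.comp (continuous_const.sub cχ)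
  have k1 : Continuous (fun w => (χ w : ℂ) * φL w) ∧ HasCompactSupport (fun w => (χ w : ℂ) * φL w) :=
    ⟨cχC.mul c1.1, c1.2.mul_left⟩
  have k2 : Continuous (fun w => (χ w : ℂ) * φK w) ∧ HasCompactSupport (fun w => (χ w : ℂ) * φK w) :=
    ⟨cχC.mul c2.1, c2.2.mul_left⟩
  have k3 : Continuous (fun w => ((1 - χ w : ℝ) : ℂ) * φL w) ∧
      HasCompactSupport (fun w => ((1 - χ w : ℝ) : ℂ) * φL w) := ⟨cχC'.mul c1.1, c1.2.mul_left⟩
  have k4 : Continuous (fun w => ((1 - χ w : ℝ) : ℂ) * φK w) ∧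
      HasCompactSupport (fun w => ((1 - χ w : ℝ) : ℂ) * φK w) := ⟨cχC'.mul c2.1, c2.2.mul_left⟩
  have k5 : Continuous (fun w => φg w - (χ w : ℂ) * φL w) ∧
      HasCompactSupport (fun w => φg w - (χ w : ℂ) * φL w) := ⟨c3.1.sub k1.1, c3.2.sub k1.2⟩
  -- the potentials
  obtain ⟨C1, hC1⟩ : ∃ C : ℂ → ℂ, C = pot (fun w => (χ w : ℂ) * φL w) := ⟨_, rfl⟩
  obtain ⟨C2, hC2⟩ : ∃ C : ℂ → ℂ, C = pot (fun w => (χ w : ℂ) * φK w) := ⟨_, rfl⟩
  obtain ⟨pa, hpa⟩ : ∃ C : ℂ → ℂ, C = pot (fun w => φg w - (χ w : ℂ) * φL w) := ⟨_, rfl⟩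
  obtain ⟨p, hp⟩ : ∃ C : ℂ → ℂ, C = pot (fun w => ((1 - χ w : ℝ) : ℂ) * φL w + φg w) := ⟨_, rfl⟩
  have vC1 : ∀ z, pot (fun w => (χ w : ℂ) * φL w) z = C1 z := fun z => by rw [hC1]
  have vC2 : ∀ z, pot (fun w => (χ w : ℂ) * φK w) z = C2 z := fun z => by rw [hC2]
  have vpa : ∀ z, pot (fun w => φg w - (χ w : ℂ) * φL w) z = pa z := fun z => by rw [hpa]
  have vp : ∀ z, pot (fun w => ((1 - χ w : ℝ) : ℂ) * φL w + φg w) z = p z := fun z => by rw [hp]
  have cC1 : Continuous C1 := by rw [hC1]; exact pot_continuous k1.1 k1.2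
  have cC2 : Continuous C2 := by rw [hC2]; exact pot_continuous k2.1 k2.2
  have cpa : Continuous pa := by rw [hpa]; exact pot_continuous k5.1 k5.2
  have cp : Continuous p := by
    rw [hp]; exact pot_continuous (k3.1.add c3.1) (k3.2.add c3.2)
  have potL : ∀ z, pot φL z = -K z := fun z => by rw [eK z, neg_neg]
  have potK : ∀ z, pot φK z = 1 - L z := fun z => by rw [eL z]; ring
  have potg : ∀ z, pot φg z = -Kg z := fun z => by rw [eKg z, neg_neg]
  have pot3 : ∀ z, pot (fun w => ((1 - χ w : ℝ) : ℂ) * φL w) z = -K z - C1 z := by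
    intro z
    rw [← potL, ← vC1, ← pot_sub c1.1 c1.2 k1.1 k1.2]
    congr 1
    funext w
    push_cast
    ring
  have pot4 : ∀ z, pot (fun w => ((1 - χ w : ℝ) : ℂ) * φK w) z = 1 - L z - C2 z := by
    intro z
    rw [← potK, ← vC2, ← pot_sub c2.1 c2.2 k2.1 k2.2]
    congr 1
    funext w
    push_cast
    ring
  have eqpa : ∀ z, pa z = -Kg z - C1 z := by
    intro z
    rw [← vpa, pot_sub c3.1 c3.2 k1.1 k1.2, potg, vC1]
  have eqp : ∀ z, p z = -K z - C1 z - Kg z := by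
    intro z
    rw [← vp, pot_add k3.1 k3.2 c3.1 c3.2, pot3, potg]
    ring
  -- estimates
  set E : ℝ := δ₂ + 9 * δ₁ with hE
  have hE0 : 0 ≤ E := by positivity
  have hE10 : E ≤ 10 := by rw [hE]; linarith
  have b1 : ∀ z, ‖z - y‖ ≤ r / 2 → ‖-K z - C1 z‖ ≤ E := by
    intro z hz
    rw [← pot3]
    exact e_ext c1.1 c1.2 bL hFK hz
  have b2 : ∀ z, ‖z - y‖ ≤ r / 2 → ‖L z + C2 z - 1‖ ≤ E := by
    intro z hz
    rw [← norm_neg, show -(L z + C2 z - 1) = 1 - L z - C2 z by ring, ← pot4]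
    exact e_ext c2.1 c2.2 bK hFL hz
  have b3 : ∀ z, ‖C1 z‖ ≤ ‖K z‖ + 9 := by
    intro z
    have e1 := e_comm c1.1 c1.2 bL hFK z
    rw [potL, vC1] at e1
    have e2 := norm_add_le (C1 z - (χ z : ℂ) * -K z) ((χ z : ℂ) * -K z)
    rw [sub_add_cancel] at e2
    have e3 : ‖(χ z : ℂ) * -K z‖ ≤ ‖K z‖ := by
      rw [norm_mul, norm_neg, Complex.norm_real, Real.norm_eq_abs, abs_of_nonneg (χ0 z)]
      exact mul_le_of_le_one_left (norm_nonneg _) (χ1 z)
    linarith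
  have b4 : ∀ z, ‖C2 z‖ ≤ ‖L z‖ + 10 := by
    intro z
    have e1 := e_comm c2.1 c2.2 bK hFL z
    rw [potK, vC2] at e1
    have e2 := norm_add_le (C2 z - (χ z : ℂ) * (1 - L z)) ((χ z : ℂ) * (1 - L z))
    rw [sub_add_cancel] at e2
    have e3 : ‖(χ z : ℂ) * (1 - L z)‖ ≤ 1 + ‖L z‖ := by
      rw [norm_mul, Complex.norm_real, Real.norm_eq_abs, abs_of_nonneg (χ0 z)]
      refine (mul_le_of_le_one_left (norm_nonneg _) (χ1 z)).trans ?_
      refine (norm_sub_le _ _).trans ?_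
      rw [norm_one]
    linarith
  have b5 : ∀ z, 4 * r ≤ ‖z - y‖ → ‖C1 z‖ ≤ 2 * A / ‖z - y‖ := by
    intro z hz
    rw [← vC1]
    exact e_out c1.1 c1.2 bL hz
  -- the numbers
  set GLg := ∫ z, g z * ‖Lg z‖ ^ 2 with hGLg
  set GKg := ∫ z, g z * ‖Kg z‖ ^ 2 with hGKg
  set HL := ∫ z, h z * ‖L z‖ ^ 2 with hHL
  set HK := ∫ z, h z * ‖K z‖ ^ 2 with hHK
  have hGLg0 : 0 ≤ GLg := integral_nonneg fun z => mul_nonneg (hg.nonneg z) (sq_nonneg _)
  have hGKg0 : 0 ≤ GKg := integral_nonneg fun z => mul_nonneg (hg.nonneg z) (sq_nonneg _)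
  have hgi : Integrable g := hg.cont.integrable_of_hasCompactSupport hg.supp
  -- T1
  have ihg : Integrable (fun z => (h z : ℝ)) := hh.cont.integrable_of_hasCompactSupport hh.supp
  have iL : Integrable (fun z => g z * ‖Lg z‖ ^ 2) := denR hg (cLg.norm.pow 2)
  have iK : Integrable (fun z => g z * ‖Kg z‖ ^ 2) := denR hg (cKg.norm.pow 2)
  have iφg : Integrable φg := c3.1.integrable_of_hasCompactSupport c3.2
  have jL : Integrable (fun z => g z + g z * ‖Lg z‖ ^ 2) := hgi.add iL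
  have jK : Integrable (fun z => g z + g z * ‖Kg z‖ ^ 2) := hgi.add iK
  have i1 : Integrable (fun z => φg z * (L z + C2 z)) :=
    (c3.1.mul (cL.add cC2)).integrable_of_hasCompactSupport c3.2.mul_right
  have T1 : Gg - E * m ≤ (∫ z, φg z * (L z + C2 z)).re := by
    have e1 : ∫ z, φg z * (L z + C2 z) = (Gg : ℂ) + ∫ z, φg z * (L z + C2 z - 1) := by
      have i2 : Integrable (fun z => φg z * (L z + C2 z - 1)) :=
        (c3.1.mul ((cL.add cC2).sub continuous_const)).integrable_of_hasCompactSupport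
          c3.2.mul_right
      rw [← eGcg, ← integral_add iφg i2]
      refine integral_congr_ae (Eventually.of_forall fun z => ?_)
      simp only
      ring
    have e2 : ‖∫ z, φg z * (L z + C2 z - 1)‖ ≤ ∫ z, E / 2 * (g z + g z * ‖Lg z‖ ^ 2) := by
      apply norm_integral_le_of_norm_le (jL.const_mul _)
      refine Eventually.of_forall fun z => ?_
      rw [norm_mul, nφg]
      by_cases hz : g z = 0
      · simp only [hz, zero_mul, add_zero, mul_zero, le_refl]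
      · have e3 := b2 z (hgs z hz)
        have e4 : ‖Lg z‖ ≤ (1 + ‖Lg z‖ ^ 2) / 2 := by nlinarith [sq_nonneg (‖Lg z‖ - 1)]
        calc g z * ‖Lg z‖ * ‖L z + C2 z - 1‖ ≤ g z * ((1 + ‖Lg z‖ ^ 2) / 2) * E :=
              mul_le_mul (mul_le_mul_of_nonneg_left e4 (hg.nonneg z)) e3 (norm_nonneg _)
                (mul_nonneg (hg.nonneg z) (by positivity))
          _ = E / 2 * (g z + g z * ‖Lg z‖ ^ 2) := by ring
    rw [integral_const_mul, integral_add hgi iL] at e2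
    have e3 : E / 2 * (m + GLg) ≤ E * m := by
      have : E * GLg ≤ E * m := mul_le_mul_of_nonneg_left (by linarith) hE0
      linarith
    have e4 := Complex.abs_re_le_norm (∫ z, φg z * (L z + C2 z - 1))
    have e5 := neg_abs_le (∫ z, φg z * (L z + C2 z - 1)).re
    rw [e1, Complex.add_re, Complex.ofReal_re]
    linarith
  -- T3
  have i3 : Integrable (fun z => (χ z : ℂ) * φL z * (L z + C2 z)) :=
    (k1.1.mul (cL.add cC2)).integrable_of_hasCompactSupport k1.2.mul_right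
  have hHi : Integrable H := hHc.integrable_of_hasCompactSupport hHs
  have T3 : (∫ z, (χ z : ℂ) * φL z * (L z + C2 z)).re ≤ 7 * A := by
    have e1 : ‖∫ z, (χ z : ℂ) * φL z * (L z + C2 z)‖ ≤
        ∫ z, (ball y (4 * r)).indicator (fun z => 7 * H z) z := by
      apply norm_integral_le_of_norm_le ((hHi.const_mul 7).indicator measurableSet_ball)
      refine Eventually.of_forall fun z => ?_
      by_cases hz : ‖z - y‖ < 4 * r
      · have e2 : z ∈ ball y (4 * r) := by rwa [mem_ball, dist_eq_norm]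
        rw [Set.indicator_of_mem e2, norm_mul, norm_mul, nφL, Complex.norm_real, Real.norm_eq_abs,
          abs_of_nonneg (χ0 z), ← vH]
        have e3 : ‖L z + C2 z‖ ≤ 2 * ‖L z‖ + 10 := by
          have := norm_add_le (L z) (C2 z)
          have := b4 z
          linarith
        have hh0 := hh.nonneg z
        have hL0 := norm_nonneg (L z)
        calc χ z * (h z * ‖L z‖) * ‖L z + C2 z‖
            ≤ 1 * (h z * ‖L z‖) * (2 * ‖L z‖ + 10) := by
              apply mul_le_mul _ e3 (norm_nonneg _) (by positivity)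
              exact mul_le_mul_of_nonneg_right (χ1 z) (by positivity)
          _ = h z * (‖L z‖ * (2 * ‖L z‖ + 10)) := by ring
          _ ≤ h z * (7 * (1 + ‖L z‖ ^ 2 + ‖K z‖ ^ 2)) := by
              apply mul_le_mul_of_nonneg_left _ hh0
              nlinarith [sq_nonneg (‖L z‖ - 1), sq_nonneg ‖K z‖]
          _ = 7 * (h z * (1 + ‖L z‖ ^ 2 + ‖K z‖ ^ 2)) := by ring
      · push Not at hz
        rw [χz z hz]
        simp only [Complex.ofReal_zero, zero_mul, norm_zero]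
        exact Set.indicator_nonneg (fun z _ => by have := hH0 z; positivity) z
    rw [integral_indicator measurableSet_ball, integral_const_mul] at e1
    have e4 := Complex.abs_re_le_norm (∫ z, (χ z : ℂ) * φL z * (L z + C2 z))
    have e5 := le_abs_self (∫ z, (χ z : ℂ) * φL z * (L z + C2 z)).re
    linarith
  -- T2
  have iJ : Integrable (fun z => g z * ‖p z‖ ^ 2) := denR hg (cp.norm.pow 2)
  have T2 : ∫ z, g z * ‖p z‖ ^ 2 ≤ GKg + 2 * E * m + E ^ 2 * m := by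
    have i41 : Integrable (fun z => E * (g z + g z * ‖Kg z‖ ^ 2)) := jK.const_mul E
    have i42 : Integrable (fun z => E ^ 2 * g z) := hgi.const_mul (E ^ 2)
    have i43 : Integrable (fun z => E * (g z + g z * ‖Kg z‖ ^ 2) + E ^ 2 * g z) := i41.add i42
    have i4 : Integrable (fun z => g z * ‖Kg z‖ ^ 2 + (E * (g z + g z * ‖Kg z‖ ^ 2) +
        E ^ 2 * g z)) := iK.add i43
    have e1 : ∫ z, g z * ‖p z‖ ^ 2 ≤ ∫ z, (g z * ‖Kg z‖ ^ 2 + (E * (g z + g z * ‖Kg z‖ ^ 2) +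
        E ^ 2 * g z)) := by
      apply integral_mono iJ i4
      intro z
      simp only
      by_cases hz : g z = 0
      · rw [hz]
        simp
      · have e3 := b1 z (hgs z hz)
        have e4 : ‖p z‖ ≤ E + ‖Kg z‖ := by
          rw [eqp]
          exact (norm_sub_le _ _).trans (by linarith)
        have e5 : ‖p z‖ ^ 2 ≤ (E + ‖Kg z‖) ^ 2 := pow_le_pow_left₀ (norm_nonneg _) e4 2
        have e6 : 2 * E * ‖Kg z‖ ≤ E * (1 + ‖Kg z‖ ^ 2) := by
          nlinarith [mul_nonneg hE0 (sq_nonneg (‖Kg z‖ - 1))]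
        calc g z * ‖p z‖ ^ 2 ≤ g z * (‖Kg z‖ ^ 2 + E * (1 + ‖Kg z‖ ^ 2) + E ^ 2) := by
              apply mul_le_mul_of_nonneg_left _ (hg.nonneg z)
              nlinarith
          _ = g z * ‖Kg z‖ ^ 2 + (E * (g z + g z * ‖Kg z‖ ^ 2) + E ^ 2 * g z) := by ring
    rw [integral_add iK i43, integral_add i41 i42, integral_const_mul,
      integral_const_mul, integral_add hgi iK] at e1
    have e2 : E * GKg ≤ E * m := mul_le_mul_of_nonneg_left (by linarith) hE0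
    have e3 : E * (m + GKg) = E * m + E * GKg := by ring
    have e4 : (∫ z, g z * ‖Kg z‖ ^ 2) = GKg := rfl
    have e5 : (∫ z, g z) = m := rfl
    rw [e4, e5] at e1
    linarith
  -- T4
  have kg : ∀ z, r ≤ ‖z - y‖ → ‖Kg z‖ ≤ 2 * m / ‖z - y‖ := by
    intro z hz
    have hzy : 0 < ‖z - y‖ := by linarith
    have e1 : ∀ w, ‖φg w * (z - w)⁻¹‖ ≤ 1 / ‖z - y‖ * (g w + g w * ‖Lg w‖ ^ 2) := by
      intro w
      rw [norm_mul, nφg, norm_inv]
      by_cases hw : g w = 0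
      · rw [hw]
        simp
      · have e2 := hgs w hw
        have e3 : ‖z - y‖ / 2 ≤ ‖z - w‖ := by
          have := norm_sub_norm_le (z - y) (w - y)
          rw [sub_sub_sub_cancel_right] at this
          linarith
        have e4 : ‖z - w‖⁻¹ ≤ 2 / ‖z - y‖ := by
          rw [inv_le_comm₀ (by linarith) (by positivity), inv_div]
          exact e3
        have e5 : ‖Lg w‖ ≤ (1 + ‖Lg w‖ ^ 2) / 2 := by nlinarith [sq_nonneg (‖Lg w‖ - 1)]
        calc g w * ‖Lg w‖ * ‖z - w‖⁻¹ ≤ g w * ((1 + ‖Lg w‖ ^ 2) / 2) * (2 / ‖z - y‖) :=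
              mul_le_mul (mul_le_mul_of_nonneg_left e5 (hg.nonneg w)) e4 (by positivity)
                (mul_nonneg (hg.nonneg w) (by positivity))
          _ = 1 / ‖z - y‖ * (g w + g w * ‖Lg w‖ ^ 2) := by ring
    have e2 := norm_integral_le_of_norm_le (jL.const_mul (1 / ‖z - y‖))
      (Eventually.of_forall e1)
    rw [integral_const_mul, integral_add hgi iL] at e2
    have e3 : Kg z = -∫ w, φg w * (z - w)⁻¹ := eKg z
    rw [e3, norm_neg]
    refine e2.trans ?_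
    rw [one_div_mul_eq_div]
    apply div_le_div_of_nonneg_right _ hzy.le
    have e6 : (∫ z, g z) = m := rfl
    rw [e6]
    linarith
  have T4a : ∫ z, (1 - χ z) * (h z * ‖Kg z‖ ^ 2) ≤ 80 * δ₁ * m := by
    have e1 : ∫ z, (1 - χ z) * (h z * ‖Kg z‖ ^ 2) ≤ 4 * m ^ 2 / r ^ 2 * A + 4 * m ^ 2 * (δ₁ / r) := by
      apply e_two
      · intro z
        exact mul_nonneg (by linarith [χ1 z]) (mul_nonneg (hh.nonneg z) (sq_nonneg _))
      · positivity
      · intro z hz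
        by_cases hzr : ‖z - y‖ < r
        · rw [χo z hzr, sub_self, zero_mul]
          have := hH0 z
          positivity
        · push Not at hzr
          have e2 := kg z hzr
          have e3 : ‖Kg z‖ ≤ 2 * m / r :=
            e2.trans (div_le_div_of_nonneg_left (by positivity) hr hzr)
          have e4 : ‖Kg z‖ ^ 2 ≤ (2 * m / r) ^ 2 := pow_le_pow_left₀ (norm_nonneg _) e3 2
          have e5 : h z ≤ H z := by
            rw [← vH]
            have := hh.nonneg z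
            nlinarith [mul_nonneg this (sq_nonneg ‖L z‖), mul_nonneg this (sq_nonneg ‖K z‖)]
          calc (1 - χ z) * (h z * ‖Kg z‖ ^ 2) ≤ 1 * (H z * (2 * m / r) ^ 2) := by
                apply mul_le_mul (by linarith [χ0 z]) _ (mul_nonneg (hh.nonneg z) (sq_nonneg _))
                  zero_le_one
                exact mul_le_mul e5 e4 (sq_nonneg _) (hH0 z)
            _ = 4 * m ^ 2 / r ^ 2 * H z := by ring
      · intro z hz
        have e2 := kg z (by linarith)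
        have e4 : ‖Kg z‖ ^ 2 ≤ (2 * m / ‖z - y‖) ^ 2 := pow_le_pow_left₀ (norm_nonneg _) e2 2
        have e5 : h z ≤ H z := by
          rw [← vH]
          have := hh.nonneg z
          nlinarith [mul_nonneg this (sq_nonneg ‖L z‖), mul_nonneg this (sq_nonneg ‖K z‖)]
        calc (1 - χ z) * (h z * ‖Kg z‖ ^ 2) ≤ 1 * (H z * (2 * m / ‖z - y‖) ^ 2) := by
              apply mul_le_mul (by linarith [χ0 z]) _ (mul_nonneg (hh.nonneg z) (sq_nonneg _))
                zero_le_one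
              exact mul_le_mul e5 e4 (sq_nonneg _) (hH0 z)
          _ = 4 * m ^ 2 * (H z / ‖z - y‖ ^ 2) := by ring
    have e2 : 4 * m ^ 2 / r ^ 2 * A ≤ 4 * m ^ 2 / r ^ 2 * (4 * δ₁ * r) :=
      mul_le_mul_of_nonneg_left hA4 (by positivity)
    have e3 : 4 * m ^ 2 / r ^ 2 * (4 * δ₁ * r) = 16 * δ₁ * m * (m / r) := by field_simp; ring
    have e4 : 4 * m ^ 2 * (δ₁ / r) = 4 * δ₁ * m * (m / r) := by field_simp
    have e5 : m / r ≤ 4 := by rw [div_le_iff₀ hr]; exact hgm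
    have e6 : 20 * δ₁ * m * (m / r) ≤ 20 * δ₁ * m * 4 :=
      mul_le_mul_of_nonneg_left e5 (by positivity)
    linarith
  have T4b : ∫ z, (1 - χ z) * (h z * ‖C1 z‖ ^ 2) ≤ 178 * A := by
    have e1 : ∫ z, (1 - χ z) * (h z * ‖C1 z‖ ^ 2) ≤ 162 * A + 4 * A ^ 2 * (δ₁ / r) := by
      apply e_two
      · intro z
        exact mul_nonneg (by linarith [χ1 z]) (mul_nonneg (hh.nonneg z) (sq_nonneg _))
      · positivity
      · intro z hz
        have e2 := b3 z
        have e4 : ‖C1 z‖ ^ 2 ≤ (‖K z‖ + 9) ^ 2 := pow_le_pow_left₀ (norm_nonneg _) e2 2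
        have hh0 := hh.nonneg z
        calc (1 - χ z) * (h z * ‖C1 z‖ ^ 2) ≤ 1 * (h z * (162 * (1 + ‖L z‖ ^ 2 + ‖K z‖ ^ 2))) := by
              apply mul_le_mul (by linarith [χ0 z]) _ (mul_nonneg hh0 (sq_nonneg _))
                zero_le_one
              apply mul_le_mul_of_nonneg_left _ hh0
              nlinarith [sq_nonneg (‖K z‖ - 9), sq_nonneg ‖L z‖, sq_nonneg ‖K z‖]
          _ = 162 * H z := by rw [← vH]; ring
      · intro z hz
        have e2 := b5 z hz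
        have e4 : ‖C1 z‖ ^ 2 ≤ (2 * A / ‖z - y‖) ^ 2 := pow_le_pow_left₀ (norm_nonneg _) e2 2
        have e5 : h z ≤ H z := by
          rw [← vH]
          have := hh.nonneg z
          nlinarith [mul_nonneg this (sq_nonneg ‖L z‖), mul_nonneg this (sq_nonneg ‖K z‖)]
        calc (1 - χ z) * (h z * ‖C1 z‖ ^ 2) ≤ 1 * (H z * (2 * A / ‖z - y‖) ^ 2) := by
              apply mul_le_mul (by linarith [χ0 z]) _ (mul_nonneg (hh.nonneg z) (sq_nonneg _))
                zero_le_one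
              exact mul_le_mul e5 e4 (sq_nonneg _) (hH0 z)
          _ = 4 * A ^ 2 * (H z / ‖z - y‖ ^ 2) := by ring
    have e2 : 4 * A ^ 2 * (δ₁ / r) = 4 * A * δ₁ * (A / r) := by field_simp
    have e3 : A / r ≤ 4 := by
      rw [div_le_iff₀ hr]
      nlinarith
    have e4 : 4 * A * δ₁ * (A / r) ≤ 4 * A * 1 * 4 := by
      apply mul_le_mul _ e3 (by positivity) (by positivity)
      exact mul_le_mul_of_nonneg_left hδ1' (by positivity)
    linarith
  have hχh : Den (fun z => (1 - χ z) * h z) :=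
    ⟨(continuous_const.sub cχ).mul hh.cont, hh.supp.mul_left,
      fun z => mul_nonneg (by linarith [χ1 z]) (hh.nonneg z)⟩
  have T4 : ∫ z, (1 - χ z) * h z * ‖pa z‖ ^ 2 ≤ 160 * δ₁ * m + 356 * A := by
    have i5 : Integrable (fun z => (1 - χ z) * (h z * ‖Kg z‖ ^ 2)) := by
      refine (denR hχh (cKg.norm.pow 2)).congr (Eventually.of_forall fun z => ?_)
      change (1 - χ z) * h z * ‖Kg z‖ ^ 2 = (1 - χ z) * (h z * ‖Kg z‖ ^ 2)
      ring
    have i6 : Integrable (fun z => (1 - χ z) * (h z * ‖C1 z‖ ^ 2)) := by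
      refine (denR hχh (cC1.norm.pow 2)).congr (Eventually.of_forall fun z => ?_)
      change (1 - χ z) * h z * ‖C1 z‖ ^ 2 = (1 - χ z) * (h z * ‖C1 z‖ ^ 2)
      ring
    have e1 : ∫ z, (1 - χ z) * h z * ‖pa z‖ ^ 2 ≤
        ∫ z, (2 * ((1 - χ z) * (h z * ‖Kg z‖ ^ 2)) + 2 * ((1 - χ z) * (h z * ‖C1 z‖ ^ 2))) := by
      apply integral_mono (denR hχh (cpa.norm.pow 2)) ((i5.const_mul 2).add (i6.const_mul 2))
      intro z
      simp only
      have e2 : ‖pa z‖ ≤ ‖Kg z‖ + ‖C1 z‖ := by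
        rw [eqpa]
        refine (norm_sub_le _ _).trans ?_
        rw [norm_neg]
      have e3 : ‖pa z‖ ^ 2 ≤ (‖Kg z‖ + ‖C1 z‖) ^ 2 := pow_le_pow_left₀ (norm_nonneg _) e2 2
      have e4 : ‖pa z‖ ^ 2 ≤ 2 * ‖Kg z‖ ^ 2 + 2 * ‖C1 z‖ ^ 2 := by
        nlinarith [sq_nonneg (‖Kg z‖ - ‖C1 z‖)]
      have e5 : (1 - χ z) * h z * ‖pa z‖ ^ 2 ≤
          (1 - χ z) * h z * (2 * ‖Kg z‖ ^ 2 + 2 * ‖C1 z‖ ^ 2) :=
        mul_le_mul_of_nonneg_left e4 (hχh.nonneg z)
      change (1 - χ z) * h z * ‖pa z‖ ^ 2 ≤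
        2 * ((1 - χ z) * (h z * ‖Kg z‖ ^ 2)) + 2 * ((1 - χ z) * (h z * ‖C1 z‖ ^ 2))
      linarith
    rw [integral_add (i5.const_mul 2) (i6.const_mul 2), integral_const_mul, integral_const_mul]
      at e1
    linarith
  -- the identities
  have iφL : Integrable φL := c1.1.integrable_of_hasCompactSupport c1.2
  have iχφL : Integrable (fun z => (χ z : ℂ) * φL z) := k1.1.integrable_of_hasCompactSupport k1.2
  set X : ℂ := ∫ z, (χ z : ℂ) * φL z with hX
  have I0 : ∫ z, (((1 - χ z : ℝ) : ℂ) * φL z + φg z) = (Gh : ℂ) - X + (Gg : ℂ) := by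
    have j1 : Integrable (fun z => φL z - (χ z : ℂ) * φL z) := iφL.sub iχφL
    rw [← eGc, ← eGcg, hX, ← integral_sub iφL iχφL, ← integral_add j1 iφg]
    refine integral_congr_ae (Eventually.of_forall fun z => ?_)
    push_cast
    ring
  have iI1 : Integrable (fun z => (1 - χ z) * (h z * ‖K z‖ ^ 2)) := by
    refine (denR hχh (cK.norm.pow 2)).congr (Eventually.of_forall fun z => ?_)
    change (1 - χ z) * h z * ‖K z‖ ^ 2 = (1 - χ z) * (h z * ‖K z‖ ^ 2)
    ring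
  have iI2 : Integrable (fun z => (1 - χ z) * (h z * ‖L z‖ ^ 2)) := by
    refine (denR hχh (cL.norm.pow 2)).congr (Eventually.of_forall fun z => ?_)
    change (1 - χ z) * h z * ‖L z‖ ^ 2 = (1 - χ z) * (h z * ‖L z‖ ^ 2)
    ring
  have I1le : ∫ z, (1 - χ z) * (h z * ‖K z‖ ^ 2) ≤ HK := by
    apply integral_mono iI1 (denR hh (cK.norm.pow 2))
    intro z
    exact mul_le_of_le_one_left (mul_nonneg (hh.nonneg z) (sq_nonneg _)) (by linarith [χ0 z])
  have I2le : ∫ z, (1 - χ z) * (h z * ‖L z‖ ^ 2) ≤ HL := by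
    apply integral_mono iI2 (denR hh (cL.norm.pow 2))
    intro z
    exact mul_le_of_le_one_left (mul_nonneg (hh.nonneg z) (sq_nonneg _)) (by linarith [χ0 z])
  have Iβ : ∫ z, ((1 - χ z) * (h z * ‖L z‖ ^ 2) + g z * ‖Lg z‖ ^ 2) =
      (∫ z, (1 - χ z) * (h z * ‖L z‖ ^ 2)) + GLg := integral_add iI2 iL
  have iφpa : Integrable (fun z => ((1 - χ z : ℝ) : ℂ) * φK z * pa z) :=
    (k4.1.mul cpa).integrable_of_hasCompactSupport k4.2.mul_right
  have Iφ : ∫ z, ((1 - χ z : ℝ) : ℂ) * φK z * pa z =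
      -((Gg : ℂ) - X) + ((∫ z, φg z * (L z + C2 z)) - ∫ z, (χ z : ℂ) * φL z * (L z + C2 z)) := by
    have e1 := anti k4.1 k4.2 k5.1 k5.2
    rw [← hpa] at e1
    rw [e1, ← eGcg, hX, ← integral_sub iφg iχφL, ← integral_sub i1 i3, ← integral_neg,
      ← integral_neg, ← integral_add]
    · refine integral_congr_ae (Eventually.of_forall fun z => ?_)
      simp only
      rw [pot4]
      ring
    · exact (iφg.sub iχφL).neg
    · exact i1.sub i3
  have I3 : ∫ z, ‖p z‖ ^ 2 * ((1 - χ z) * h z + g z) =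
      (∫ z, (1 - χ z) * (h z * ‖K z‖ ^ 2)) - 2 * (∫ z, ((1 - χ z : ℝ) : ℂ) * φK z * pa z).re +
        (∫ z, (1 - χ z) * h z * ‖pa z‖ ^ 2) + ∫ z, g z * ‖p z‖ ^ 2 := by
    have ire : Integrable (fun z => (((1 - χ z : ℝ) : ℂ) * φK z * pa z).re) := iφpa.re
    have ipa : Integrable (fun z => (1 - χ z) * h z * ‖pa z‖ ^ 2) := denR hχh (cpa.norm.pow 2)
    have j2 : Integrable (fun z => 2 * (((1 - χ z : ℝ) : ℂ) * φK z * pa z).re) := ire.const_mul 2
    have j3 : Integrable (fun z => (1 - χ z) * (h z * ‖K z‖ ^ 2) -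
        2 * (((1 - χ z : ℝ) : ℂ) * φK z * pa z).re) := iI1.sub j2
    have j4 : Integrable (fun z => (1 - χ z) * (h z * ‖K z‖ ^ 2) -
        2 * (((1 - χ z : ℝ) : ℂ) * φK z * pa z).re + (1 - χ z) * h z * ‖pa z‖ ^ 2) := j3.add ipa
    rw [← re_int iφpa, ← integral_const_mul, ← integral_sub iI1 j2, ← integral_add j3 ipa,
      ← integral_add j4 iJ]
    refine integral_congr_ae (Eventually.of_forall fun z => ?_)
    have e1 : p z = pa z - K z := by
      rw [eqp, eqpa]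
      ring
    have e2 : ‖p z‖ ^ 2 = ‖pa z‖ ^ 2 - 2 * (conj (K z) * pa z).re + ‖K z‖ ^ 2 := by
      rw [e1, ← Complex.normSq_eq_norm_sq, ← Complex.normSq_eq_norm_sq,
        ← Complex.normSq_eq_norm_sq, Complex.normSq_sub]
      have : (pa z * conj (K z)).re = (conj (K z) * pa z).re := by rw [mul_comm]
      rw [this]
      ring
    have e3 : (((1 - χ z : ℝ) : ℂ) * φK z * pa z).re = (1 - χ z) * h z * (conj (K z) * pa z).re := by
      rw [← vφK]
      have : ((1 - χ z : ℝ) : ℂ) * ((h z : ℂ) * conj (K z)) * pa z =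
          (((1 - χ z) * h z : ℝ) : ℂ) * (conj (K z) * pa z) := by
        push_cast
        ring
      rw [this, Complex.re_ofReal_mul]
    change ‖p z‖ ^ 2 * ((1 - χ z) * h z + g z) =
      (1 - χ z) * (h z * ‖K z‖ ^ 2) - 2 * (((1 - χ z : ℝ) : ℂ) * φK z * pa z).re +
        (1 - χ z) * h z * ‖pa z‖ ^ 2 + g z * ‖p z‖ ^ 2
    rw [e3, mul_add, e2]
    ring
  simp only [vp]
  rw [I0, Iβ, I3, Iφ]
  simp only [Complex.add_re, Complex.sub_re, Complex.neg_re, Complex.ofReal_re]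
  have hE2 : E ^ 2 * m ≤ 10 * E * m := by
    have : E ^ 2 ≤ 10 * E := by nlinarith
    exact mul_le_mul_of_nonneg_right this hm0
  have hEm : E * m ≤ 9 * (δ₁ + δ₂) * m := by
    apply mul_le_mul_of_nonneg_right _ hm0
    rw [hE]
    linarith
  have hd1 : δ₁ * m ≤ (δ₁ + δ₂) * m := mul_le_mul_of_nonneg_right (by linarith) hm0
  have hd0 : 0 ≤ (δ₁ + δ₂) * m := by positivity
  linarith

theorem loc (h1 : S_GAM) (h2 : S_VAR) : S_LOC := by
  refine ⟨1000, by norm_num, ?_⟩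
  intro h y r δ₁ δ₂ hh0 hr hδ1 hδ1' hδ2 hδ2' hHM hFK hFL g hg hgs hgm
  obtain ⟨cL, cK, eL, eK, hKL, eG, eGc, hG0, hGm⟩ := h1 h hh0
  obtain ⟨cLg, cKg, eLg, eKg, hKLg, eGg, eGcg, hGg0, hGgm⟩ := h1 g hg
  have hc := core hh0 hg cL cK cLg cKg eL eK eKg eG eGc eGg eGcg hGgm hr hδ1 hδ1' hδ2 hδ2' hHM
    hFK hFL hgs hgm
  refine le_trans hc ?_
  have cχ := ch_cont y r
  have χ1 := ch_le_one y r
  have a1 := denC hh0 (Complex.continuous_conj.comp cL)
  have a2 := denC hg (Complex.continuous_conj.comp cLg)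
  have hμ : Den (fun z => (1 - chi y r z) * h z + g z) :=
    ⟨((continuous_const.sub cχ).mul hh0.cont).add hg.cont, (hh0.supp.mul_left).add hg.supp,
      fun z => add_nonneg (mul_nonneg (by
        have := χ1 z
        change 0 ≤ 1 - ch y r z
        linarith) (hh0.nonneg z)) (hg.nonneg z)⟩
  refine h2 _ hμ (fun z => ((1 - ch y r z : ℝ) : ℂ) * ((h z : ℂ) * conj (fL h z)) +
    (g z : ℂ) * conj (fL g z)) ?_ ?_
    (fun z => (1 - ch y r z) * (h z * ‖fL h z‖ ^ 2) + g z * ‖fL g z‖ ^ 2) ?_ ?_ ?_ ?_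
  · exact ((Complex.continuous_ofReal.comp (continuous_const.sub cχ)).mul a1.1).add a2.1
  · exact (a1.2.mul_left).add a2.2
  · exact ((continuous_const.sub cχ).mul (hh0.cont.mul (cL.norm.pow 2))).add
      (hg.cont.mul (cLg.norm.pow 2))
  · exact ((hh0.supp.mul_right).mul_left).add hg.supp.mul_right
  · intro z
    have e1 : ‖((1 - ch y r z : ℝ) : ℂ) * ((h z : ℂ) * conj (fL h z)) +
        (g z : ℂ) * conj (fL g z)‖ ≤ (1 - ch y r z) * h z * ‖fL h z‖ + g z * ‖fL g z‖ := by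
      refine (norm_add_le _ _).trans (le_of_eq ?_)
      rw [norm_mul, norm_mul, norm_mul, Complex.norm_real, Complex.norm_real, Complex.norm_real,
        Real.norm_eq_abs, Real.norm_eq_abs, Real.norm_eq_abs, abs_of_nonneg (hh0.nonneg z),
        abs_of_nonneg (hg.nonneg z), abs_of_nonneg (by linarith [χ1 z] : (0 : ℝ) ≤ 1 - ch y r z),
        RCLike.norm_conj, RCLike.norm_conj]
      ring
    have e2 := pow_le_pow_left₀ (norm_nonneg _) e1 2
    refine e2.trans ?_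
    have hA : 0 ≤ (1 - ch y r z) * h z := mul_nonneg (by linarith [χ1 z]) (hh0.nonneg z)
    have hB := hg.nonneg z
    change _ ≤ ((1 - ch y r z) * (h z * ‖fL h z‖ ^ 2) + g z * ‖fL g z‖ ^ 2) *
      ((1 - ch y r z) * h z + g z)
    rw [show (1 - ch y r z) * (h z * ‖fL h z‖ ^ 2) = (1 - ch y r z) * h z * ‖fL h z‖ ^ 2 by ring]
    generalize (1 - ch y r z) * h z = a at *
    generalize g z = b at *
    generalize ‖fL h z‖ = u at *
    generalize ‖fL g z‖ = v at *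
    nlinarith [mul_nonneg (mul_nonneg hA hB) (sq_nonneg (u - v))]
  · intro z
    exact add_nonneg (mul_nonneg (by linarith [χ1 z]) (mul_nonneg (hh0.nonneg z) (sq_nonneg _)))
      (mul_nonneg (hg.nonneg z) (sq_nonneg _))

end Pool.Agent.Q177.TC
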