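import Mathlib
import Pool.Agent.H352R3.SA.Fub
import Pool.Agent.H352R3.SA.Pot

/-!
Estimates for Cauchy potentials of a density with small mass in the discs about a point.
-/

set_option autoImplicit false

namespace Pool.Agent.Q177.TC

open MeasureTheory Set Metric Filter Topology
open scoped ComplexConjugate
open Pool.Agent.H352R3.SA (Den pot LK Gam pot_integrable pot_continuous anti)

/-! ### the dyadic estimate -/

section

variable {H : ℂ → ℝ} {y : ℂ} {r δ : ℝ}

theorem dy_pt (h0 : ∀ z, 0 ≤ H z) (hr : 0 < r) (J : ℕ) (w : ℂ) (h1 : 4 * r ≤ ‖w - y‖)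
    (h2 : ‖w - y‖ < 2 ^ J * (4 * r)) :
    H w / ‖w - y‖ ^ 2 ≤ ∑ j ∈ Finset.range J,
      (ball y (2 ^ (j + 1) * (4 * r))).indicator H w / (2 ^ j * (4 * r)) ^ 2 := by
  induction J with
  | zero =>
    rw [pow_zero, one_mul] at h2
    linarith
  | succ J ih =>
    rw [Finset.sum_range_succ]
    have hn : 0 ≤ (ball y (2 ^ (J + 1) * (4 * r))).indicator H w / (2 ^ J * (4 * r)) ^ 2 :=
      div_nonneg (Set.indicator_nonneg (fun z _ => h0 z) w) (sq_nonneg _)
    by_cases h3 : ‖w - y‖ < 2 ^ J * (4 * r)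
    · linarith [ih h3]
    · push Not at h3
      have h4 : 0 ≤ ∑ j ∈ Finset.range J,
          (ball y (2 ^ (j + 1) * (4 * r))).indicator H w / (2 ^ j * (4 * r)) ^ 2 :=
        Finset.sum_nonneg fun j _ =>
          div_nonneg (Set.indicator_nonneg (fun z _ => h0 z) w) (sq_nonneg _)
      have h5 : w ∈ ball y (2 ^ (J + 1) * (4 * r)) := by
        rw [mem_ball, dist_eq_norm]
        exact h2
      rw [Set.indicator_of_mem h5]
      have h6 : 0 < (2 : ℝ) ^ J * (4 * r) := by positivity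
      have h7 : H w / ‖w - y‖ ^ 2 ≤ H w / (2 ^ J * (4 * r)) ^ 2 := by
        apply div_le_div_of_nonneg_left (h0 w) (by positivity)
        exact pow_le_pow_left₀ h6.le h3 2
      linarith

theorem geo_le (J : ℕ) : ∑ j ∈ Finset.range J, (1 / 2 : ℝ) ^ j ≤ 2 := by
  have h1 : ∀ J : ℕ, ∑ j ∈ Finset.range J, (1 / 2 : ℝ) ^ j = 2 - 2 * (1 / 2) ^ J := by
    intro J
    induction J with
    | zero => norm_num
    | succ J ih =>
      rw [Finset.sum_range_succ, ih, pow_succ]
      ring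
  rw [h1]
  have : (0 : ℝ) < (1 / 2) ^ J := by positivity
  linarith

theorem meas_far : MeasurableSet {w : ℂ | 4 * r ≤ ‖w - y‖} :=
  measurableSet_le measurable_const (by fun_prop)

theorem dy (hc : Continuous H) (hs : HasCompactSupport H) (h0 : ∀ z, 0 ≤ H z) (hr : 0 < r)
    (hδ : 0 ≤ δ) (hH : ∀ ρ, 4 * r ≤ ρ → ∫ z in ball y ρ, H z ≤ δ * ρ) :
    ∫ w in {w | 4 * r ≤ ‖w - y‖}, H w / ‖w - y‖ ^ 2 ≤ δ / r := by
  obtain ⟨R, hR⟩ := hs.isCompact.isBounded.subset_ball y
  obtain ⟨J, hJ⟩ := pow_unbounded_of_one_lt (R / (4 * r)) (one_lt_two (α := ℝ))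
  have hR' : R < 2 ^ J * (4 * r) := by
    rw [div_lt_iff₀ (by positivity)] at hJ
    exact hJ
  have hHi : Integrable H := hc.integrable_of_hasCompactSupport hs
  rw [← integral_indicator meas_far]
  have hi : ∀ j : ℕ, Integrable (fun w =>
      (ball y (2 ^ (j + 1) * (4 * r))).indicator H w / (2 ^ j * (4 * r)) ^ 2) := fun j =>
    (hHi.indicator measurableSet_ball).div_const _
  have h1 : ∫ w, ({w | 4 * r ≤ ‖w - y‖} : Set ℂ).indicator (fun w => H w / ‖w - y‖ ^ 2) w ≤
      ∫ w, ∑ j ∈ Finset.range J,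
        (ball y (2 ^ (j + 1) * (4 * r))).indicator H w / (2 ^ j * (4 * r)) ^ 2 := by
    apply integral_mono_of_nonneg
    · exact Eventually.of_forall fun w => Set.indicator_nonneg
        (fun z _ => div_nonneg (h0 z) (sq_nonneg _)) w
    · exact integrable_finsetSum _ fun j _ => hi j
    · refine Eventually.of_forall fun w => ?_
      have hnn : 0 ≤ ∑ j ∈ Finset.range J,
          (ball y (2 ^ (j + 1) * (4 * r))).indicator H w / (2 ^ j * (4 * r)) ^ 2 :=
        Finset.sum_nonneg fun j _ =>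
          div_nonneg (Set.indicator_nonneg (fun z _ => h0 z) w) (sq_nonneg _)
      by_cases hw : 4 * r ≤ ‖w - y‖
      · rw [Set.indicator_of_mem (show w ∈ {w | 4 * r ≤ ‖w - y‖} from hw)]
        by_cases hw0 : H w = 0
        · rw [hw0, zero_div]
          exact hnn
        · apply dy_pt h0 hr J w hw
          have h3 : w ∈ ball y R := hR (subset_tsupport H hw0)
          rw [mem_ball, dist_eq_norm] at h3
          linarith
      · rw [Set.indicator_of_notMem (show w ∉ {w | 4 * r ≤ ‖w - y‖} from hw)]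
        exact hnn
  refine h1.trans ?_
  rw [integral_finsetSum _ fun j _ => hi j]
  have h2 : ∀ j ∈ Finset.range J, ∫ w,
      (ball y (2 ^ (j + 1) * (4 * r))).indicator H w / (2 ^ j * (4 * r)) ^ 2 ≤
      δ / (2 * r) * (1 / 2) ^ j := by
    intro j _
    rw [integral_div, integral_indicator measurableSet_ball]
    have h3 : 4 * r ≤ 2 ^ (j + 1) * (4 * r) := by
      have : (1 : ℝ) ≤ 2 ^ (j + 1) := one_le_pow₀ one_le_two
      nlinarith
    have h4 := hH _ h3
    have h6 : 0 < (2 : ℝ) ^ j * (4 * r) := by positivity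
    rw [div_le_iff₀ (by positivity)]
    refine h4.trans (le_of_eq ?_)
    rw [div_mul_eq_mul_div, div_mul_eq_mul_div, eq_div_iff (by positivity), one_div, inv_pow,
      pow_succ]
    field_simp
    ring
  refine (Finset.sum_le_sum h2).trans ?_
  rw [← Finset.mul_sum]
  have h3 : 0 ≤ δ / (2 * r) := by positivity
  calc δ / (2 * r) * ∑ j ∈ Finset.range J, (1 / 2 : ℝ) ^ j ≤ δ / (2 * r) * 2 :=
        mul_le_mul_of_nonneg_left (geo_le J) h3
    _ = δ / r := by field_simp

theorem dyi (hc : Continuous H) (hs : HasCompactSupport H) (h0 : ∀ z, 0 ≤ H z) (hr : 0 < r) :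
    IntegrableOn (fun w => H w / ‖w - y‖ ^ 2) {w | 4 * r ≤ ‖w - y‖} := by
  have hHi : Integrable H := hc.integrable_of_hasCompactSupport hs
  refine Integrable.mono' (hHi.integrableOn.div_const ((4 * r) ^ 2)) ?_ ?_
  · apply Measurable.aestronglyMeasurable
    exact hc.measurable.div (by fun_prop)
  · refine (ae_restrict_iff' meas_far).2 (Eventually.of_forall fun w hw => ?_)
    rw [Real.norm_eq_abs, abs_of_nonneg (div_nonneg (h0 w) (sq_nonneg _))]
    apply div_le_div_of_nonneg_left (h0 w) (by positivity)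
    exact pow_le_pow_left₀ (by positivity) hw 2

end

/-! ### the cut-off function -/

/-- cut-off function, one on the disc of radius `r`, zero off the disc of radius `2 r` -/
noncomputable def ch (y : ℂ) (r : ℝ) (z : ℂ) : ℝ := max 0 (min 1 (2 - ‖z - y‖ / r))

theorem ch_cont (y : ℂ) (r : ℝ) : Continuous (ch y r) := by
  unfold ch
  fun_prop

theorem ch_nonneg (y : ℂ) (r : ℝ) (z : ℂ) : 0 ≤ ch y r z := le_max_left _ _

theorem ch_le_one (y : ℂ) (r : ℝ) (z : ℂ) : ch y r z ≤ 1 :=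
  max_le zero_le_one (min_le_left _ _)

theorem ch_one {y : ℂ} {r : ℝ} (hr : 0 < r) {z : ℂ} (hz : ‖z - y‖ ≤ r) : ch y r z = 1 := by
  unfold ch
  have : ‖z - y‖ / r ≤ 1 := by rw [div_le_one hr]; exact hz
  rw [min_eq_left (by linarith), max_eq_right zero_le_one]

theorem ch_zero {y : ℂ} {r : ℝ} (hr : 0 < r) {z : ℂ} (hz : 2 * r ≤ ‖z - y‖) : ch y r z = 0 := by
  unfold ch
  have : 2 ≤ ‖z - y‖ / r := by rw [le_div_iff₀ hr]; exact hz
  exact max_eq_left ((min_le_right _ _).trans (by linarith))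

theorem ch_lip {y : ℂ} {r : ℝ} (hr : 0 < r) (z w : ℂ) : |ch y r w - ch y r z| ≤ ‖z - w‖ / r := by
  unfold ch
  have h1 : |max 0 (min 1 (2 - ‖w - y‖ / r)) - max 0 (min 1 (2 - ‖z - y‖ / r))| ≤
      |(2 - ‖w - y‖ / r) - (2 - ‖z - y‖ / r)| := by
    generalize 2 - ‖w - y‖ / r = a
    generalize 2 - ‖z - y‖ / r = b
    rw [abs_le]
    have h3 := le_abs_self (a - b)
    have h4 := neg_abs_le (a - b)
    constructor
    · rcases le_total b 0 with hb | hb <;> rcases le_total a 0 with ha | ha <;>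
        rcases le_total b 1 with hb1 | hb1 <;> rcases le_total a 1 with ha1 | ha1 <;>
        simp only [max_def, min_def] <;> split_ifs <;> linarith
    · rcases le_total b 0 with hb | hb <;> rcases le_total a 0 with ha | ha <;>
        rcases le_total b 1 with hb1 | hb1 <;> rcases le_total a 1 with ha1 | ha1 <;>
        simp only [max_def, min_def] <;> split_ifs <;> linarith
  refine h1.trans ?_
  have h2 : (2 - ‖w - y‖ / r) - (2 - ‖z - y‖ / r) = (‖z - y‖ - ‖w - y‖) / r := by ring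
  rw [h2, abs_div, abs_of_pos hr]
  apply div_le_div_of_nonneg_right _ hr.le
  have h3 := abs_norm_sub_norm_le (z - y) (w - y)
  rwa [sub_sub_sub_cancel_right] at h3

/-! ### the fields -/

section

variable {H : ℂ → ℝ} {φ : ℂ → ℂ} {y : ℂ} {r δ δ' : ℝ}

/-- the part of the potential off the disc of radius `4 r` -/
noncomputable def far (φ : ℂ → ℂ) (y : ℂ) (r : ℝ) (z : ℂ) : ℂ :=
  ∫ w in {w | 4 * r ≤ ‖w - y‖}, φ w * (z - w)⁻¹

theorem far_le (hc : Continuous H) (hs : HasCompactSupport H) (h0 : ∀ z, 0 ≤ H z) (hr : 0 < r)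
    (hδ : 0 ≤ δ) (hH : ∀ ρ, 4 * r ≤ ρ → ∫ z in ball y ρ, H z ≤ δ * ρ) (hφ : Continuous φ)
    (cφ : HasCompactSupport φ) (hφH : ∀ z, ‖φ z‖ ≤ H z) (hy : ‖far φ y r y‖ ≤ δ') {t : ℝ}
    (ht : t ≤ 2 * r) {z : ℂ} (hz : ‖z - y‖ ≤ t) : ‖far φ y r z‖ ≤ δ' + 2 * t * (δ / r) := by
  have h1 : far φ y r z - far φ y r y =
      ∫ w in {w | 4 * r ≤ ‖w - y‖}, φ w * ((z - w)⁻¹ - (y - w)⁻¹) := by
    unfold far
    rw [← integral_sub (pot_integrable hφ cφ z).integrableOn (pot_integrable hφ cφ y).integrableOn]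
    refine integral_congr_ae (Eventually.of_forall fun w => ?_)
    simp only
    ring
  have ht0 : 0 ≤ t := (norm_nonneg _).trans hz
  have h2 : ‖far φ y r z - far φ y r y‖ ≤
      ∫ w in {w | 4 * r ≤ ‖w - y‖}, 2 * t * (H w / ‖w - y‖ ^ 2) := by
    rw [h1]
    apply norm_integral_le_of_norm_le ((dyi hc hs h0 hr).const_mul (2 * t))
    refine (ae_restrict_iff' meas_far).2 (Eventually.of_forall fun w hw => ?_)
    change 4 * r ≤ ‖w - y‖ at hw
    have e1 : ‖w - y‖ / 2 ≤ ‖z - w‖ := by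
      have := norm_sub_norm_le (w - y) (z - y)
      rw [sub_sub_sub_cancel_right, norm_sub_rev w z] at this
      linarith
    have hwy : 0 < ‖w - y‖ := by linarith
    have hzw : 0 < ‖z - w‖ := by linarith
    have hzw0 : z - w ≠ 0 := norm_pos_iff.mp hzw
    have hyw0 : y - w ≠ 0 := by
      rw [← norm_pos_iff, norm_sub_rev]
      exact hwy
    have e2 : (z - w)⁻¹ - (y - w)⁻¹ = (y - z) / ((z - w) * (y - w)) := by
      field_simp
      ring
    rw [e2, norm_mul, norm_div, norm_mul, norm_sub_rev y z, norm_sub_rev y w]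
    have e3 : ‖z - y‖ / (‖z - w‖ * ‖w - y‖) ≤ 2 * t / ‖w - y‖ ^ 2 := by
      rw [div_le_div_iff₀ (by positivity) (by positivity)]
      have e4 : ‖z - y‖ * ‖w - y‖ ^ 2 ≤ t * ‖w - y‖ ^ 2 :=
        mul_le_mul_of_nonneg_right hz (by positivity)
      have e5 : t * ‖w - y‖ ^ 2 ≤ 2 * t * (‖z - w‖ * ‖w - y‖) := by
        have e6 : t * ‖w - y‖ * ‖w - y‖ ≤ t * ‖w - y‖ * (2 * ‖z - w‖) :=
          mul_le_mul_of_nonneg_left (by linarith) (by positivity)
        linarith [e6]
      linarith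
    calc ‖φ w‖ * (‖z - y‖ / (‖z - w‖ * ‖w - y‖)) ≤ H w * (2 * t / ‖w - y‖ ^ 2) :=
          mul_le_mul (hφH w) e3 (by positivity) (h0 w)
      _ = 2 * t * (H w / ‖w - y‖ ^ 2) := by ring
  rw [integral_const_mul] at h2
  have h3 := dy hc hs h0 hr hδ hH
  have h4 : ‖far φ y r z‖ ≤ ‖far φ y r y‖ + ‖far φ y r z - far φ y r y‖ := by
    have := norm_add_le (far φ y r y) (far φ y r z - far φ y r y)
    rwa [add_sub_cancel] at this
  have h5 : 2 * t * ∫ w in {w | 4 * r ≤ ‖w - y‖}, H w / ‖w - y‖ ^ 2 ≤ 2 * t * (δ / r) :=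
    mul_le_mul_of_nonneg_left h3 (by positivity)
  linarith

theorem compl_far : ({w : ℂ | 4 * r ≤ ‖w - y‖} : Set ℂ)ᶜ = ball y (4 * r) := by
  ext w
  rw [mem_compl_iff, mem_ball, dist_eq_norm]
  change ¬ (4 * r ≤ ‖w - y‖) ↔ ‖w - y‖ < 4 * r
  exact not_le

/-- splitting an integral -/
theorem split_far {f : ℂ → ℂ} (hf : Integrable f) :
    ∫ w, f w = (∫ w in {w | 4 * r ≤ ‖w - y‖}, f w) + ∫ w in ball y (4 * r), f w := by
  rw [← compl_far, integral_add_compl meas_far hf]

theorem split_farR {f : ℂ → ℝ} (hf : Integrable f) :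
    ∫ w, f w = (∫ w in {w | 4 * r ≤ ‖w - y‖}, f w) + ∫ w in ball y (4 * r), f w := by
  rw [← compl_far, integral_add_compl meas_far hf]

/-- the potential of the part off the disc of radius `r`, near `y` -/
theorem ext_le (hc : Continuous H) (hs : HasCompactSupport H) (h0 : ∀ z, 0 ≤ H z) (hr : 0 < r)
    (hδ : 0 ≤ δ) (hH : ∀ ρ, 4 * r ≤ ρ → ∫ z in ball y ρ, H z ≤ δ * ρ) (hφ : Continuous φ)
    (cφ : HasCompactSupport φ) (hφH : ∀ z, ‖φ z‖ ≤ H z) (hy : ‖far φ y r y‖ ≤ δ')
    {z : ℂ} (hz : ‖z - y‖ ≤ r / 2) :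
    ‖pot (fun w => ((1 - ch y r w : ℝ) : ℂ) * φ w) z‖ ≤ δ' + 9 * δ := by
  have hHi : Integrable H := hc.integrable_of_hasCompactSupport hs
  have hψ : Continuous (fun w => ((1 - ch y r w : ℝ) : ℂ) * φ w) :=
    (Complex.continuous_ofReal.comp (continuous_const.sub (ch_cont y r))).mul hφ
  have cψ : HasCompactSupport (fun w => ((1 - ch y r w : ℝ) : ℂ) * φ w) := cφ.mul_left
  have hi := pot_integrable hψ cψ z
  unfold pot
  rw [split_far (y := y) (r := r) hi]
  have h1 : ∫ w in {w | 4 * r ≤ ‖w - y‖}, ((1 - ch y r w : ℝ) : ℂ) * φ w * (z - w)⁻¹ =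
      far φ y r z := by
    unfold far
    apply setIntegral_congr_fun meas_far
    intro w hw
    change 4 * r ≤ ‖w - y‖ at hw
    simp only
    rw [ch_zero hr (by linarith)]
    simp
  have h2 : ‖∫ w in ball y (4 * r), ((1 - ch y r w : ℝ) : ℂ) * φ w * (z - w)⁻¹‖ ≤
      ∫ w in ball y (4 * r), 2 / r * H w := by
    apply norm_integral_le_of_norm_le (hHi.integrableOn.const_mul _)
    refine (ae_restrict_iff' measurableSet_ball).2 (Eventually.of_forall fun w hw => ?_)
    by_cases hw1 : ‖w - y‖ ≤ r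
    · rw [ch_one hr hw1]
      simp only [sub_self, Complex.ofReal_zero, zero_mul, norm_zero]
      have := h0 w
      positivity
    · push Not at hw1
      have e1 : r / 2 ≤ ‖z - w‖ := by
        have := norm_sub_norm_le (w - y) (z - y)
        rw [sub_sub_sub_cancel_right, norm_sub_rev w z] at this
        linarith
      rw [norm_mul, norm_mul, norm_inv]
      have e2 : ‖((1 - ch y r w : ℝ) : ℂ)‖ ≤ 1 := by
        rw [Complex.norm_real, Real.norm_eq_abs, abs_le]
        have := ch_nonneg y r w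
        have := ch_le_one y r w
        constructor <;> linarith
      have e3 : ‖z - w‖⁻¹ ≤ 2 / r := by
        rw [inv_le_comm₀ (by linarith) (by positivity), inv_div]
        exact e1
      calc ‖((1 - ch y r w : ℝ) : ℂ)‖ * ‖φ w‖ * ‖z - w‖⁻¹ ≤ 1 * H w * (2 / r) := by
            apply mul_le_mul _ e3 (by positivity) (by have := h0 w; positivity)
            exact mul_le_mul e2 (hφH w) (norm_nonneg _) zero_le_one
        _ = 2 / r * H w := by ring
  rw [h1]
  rw [integral_const_mul] at h2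
  have h3 := hH (4 * r) le_rfl
  have h4 : 2 / r * ∫ w in ball y (4 * r), H w ≤ 2 / r * (δ * (4 * r)) :=
    mul_le_mul_of_nonneg_left h3 (by positivity)
  have h5 : 2 / r * (δ * (4 * r)) = 8 * δ := by field_simp; ring
  have h6 := far_le hc hs h0 hr hδ hH hφ cφ hφH hy (t := r / 2) (by linarith) hz
  have h7 : 2 * (r / 2) * (δ / r) = δ := by field_simp
  have h8 := norm_add_le (far φ y r z)
    (∫ w in ball y (4 * r), ((1 - ch y r w : ℝ) : ℂ) * φ w * (z - w)⁻¹)
  linarith

/-- the commutator -/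
theorem comm_le (hc : Continuous H) (hs : HasCompactSupport H) (h0 : ∀ z, 0 ≤ H z) (hr : 0 < r)
    (hδ : 0 ≤ δ) (hH : ∀ ρ, 4 * r ≤ ρ → ∫ z in ball y ρ, H z ≤ δ * ρ) (hφ : Continuous φ)
    (cφ : HasCompactSupport φ) (hφH : ∀ z, ‖φ z‖ ≤ H z) (hy : ‖far φ y r y‖ ≤ δ') (hδ' : 0 ≤ δ')
    (z : ℂ) :
    ‖pot (fun w => (ch y r w : ℂ) * φ w) z - (ch y r z : ℂ) * pot φ z‖ ≤ 8 * δ + δ' := by
  have hHi : Integrable H := hc.integrable_of_hasCompactSupport hs
  have hψ : Continuous (fun w => (ch y r w : ℂ) * φ w) :=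
    (Complex.continuous_ofReal.comp (ch_cont y r)).mul hφ
  have cψ : HasCompactSupport (fun w => (ch y r w : ℂ) * φ w) := cφ.mul_left
  have hi1 := pot_integrable hψ cψ z
  have hi2 := pot_integrable hφ cφ z
  have h1 : pot (fun w => (ch y r w : ℂ) * φ w) z - (ch y r z : ℂ) * pot φ z =
      ∫ w, ((ch y r w - ch y r z : ℝ) : ℂ) * φ w * (z - w)⁻¹ := by
    unfold pot
    rw [← integral_const_mul, ← integral_sub hi1 (hi2.const_mul _)]
    refine integral_congr_ae (Eventually.of_forall fun w => ?_)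
    simp only
    push_cast
    ring
  have hi3 : Integrable (fun w => ((ch y r w - ch y r z : ℝ) : ℂ) * φ w * (z - w)⁻¹) := by
    have := hi1.sub (hi2.const_mul (ch y r z : ℂ))
    refine this.congr (Eventually.of_forall fun w => ?_)
    simp only [Pi.sub_apply]
    push_cast
    ring
  rw [h1, split_far (y := y) (r := r) hi3]
  have h2 : ∫ w in {w | 4 * r ≤ ‖w - y‖}, ((ch y r w - ch y r z : ℝ) : ℂ) * φ w * (z - w)⁻¹ =
      -(ch y r z : ℂ) * far φ y r z := by
    unfold far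
    rw [← integral_const_mul]
    apply setIntegral_congr_fun meas_far
    intro w hw
    change 4 * r ≤ ‖w - y‖ at hw
    simp only
    rw [ch_zero hr (by linarith)]
    push_cast
    ring
  have h3 : ‖∫ w in ball y (4 * r), ((ch y r w - ch y r z : ℝ) : ℂ) * φ w * (z - w)⁻¹‖ ≤
      ∫ w in ball y (4 * r), 1 / r * H w := by
    apply norm_integral_le_of_norm_le (hHi.integrableOn.const_mul _)
    refine Eventually.of_forall fun w => ?_
    rw [norm_mul, norm_mul, norm_inv, Complex.norm_real, Real.norm_eq_abs]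
    have e1 := ch_lip (y := y) hr z w
    rcases eq_or_ne z w with rfl | hzw
    · simp only [sub_self, norm_zero, inv_zero, mul_zero]
      have := h0 z
      positivity
    · have hzw' : 0 < ‖z - w‖ := norm_pos_iff.mpr (sub_ne_zero.mpr hzw)
      calc |ch y r w - ch y r z| * ‖φ w‖ * ‖z - w‖⁻¹ ≤ ‖z - w‖ / r * H w * ‖z - w‖⁻¹ := by
            apply mul_le_mul_of_nonneg_right _ (by positivity)
            exact mul_le_mul e1 (hφH w) (norm_nonneg _) (by positivity)
        _ = 1 / r * H w := by field_simp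
  rw [integral_const_mul] at h3
  have h4 : 1 / r * ∫ w in ball y (4 * r), H w ≤ 1 / r * (δ * (4 * r)) :=
    mul_le_mul_of_nonneg_left (hH (4 * r) le_rfl) (by positivity)
  have h5 : 1 / r * (δ * (4 * r)) = 4 * δ := by field_simp
  have h6 : ‖-(ch y r z : ℂ) * far φ y r z‖ ≤ δ' + 4 * δ := by
    by_cases hz : ‖z - y‖ ≤ 2 * r
    · have e1 := far_le hc hs h0 hr hδ hH hφ cφ hφH hy (t := 2 * r) le_rfl hz
      have e2 : 2 * (2 * r) * (δ / r) = 4 * δ := by field_simp; ring
      rw [norm_mul, norm_neg, Complex.norm_real, Real.norm_eq_abs, abs_of_nonneg (ch_nonneg y r z)]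
      calc ch y r z * ‖far φ y r z‖ ≤ 1 * ‖far φ y r z‖ :=
            mul_le_mul_of_nonneg_right (ch_le_one y r z) (norm_nonneg _)
        _ ≤ δ' + 4 * δ := by linarith
    · push Not at hz
      rw [ch_zero hr hz.le]
      simp only [Complex.ofReal_zero, neg_zero, zero_mul, norm_zero]
      positivity
  rw [h2]
  have h8 := norm_add_le (-(ch y r z : ℂ) * far φ y r z)
    (∫ w in ball y (4 * r), ((ch y r w - ch y r z : ℝ) : ℂ) * φ w * (z - w)⁻¹)
  linarith

/-- the potential of the part in the disc of radius `2 r`, at distance at least `4 r` -/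
theorem out_le (hc : Continuous H) (hs : HasCompactSupport H) (h0 : ∀ z, 0 ≤ H z) (hr : 0 < r)
    (hφ : Continuous φ) (cφ : HasCompactSupport φ) (hφH : ∀ z, ‖φ z‖ ≤ H z)
    {z : ℂ} (hz : 4 * r ≤ ‖z - y‖) :
    ‖pot (fun w => (ch y r w : ℂ) * φ w) z‖ ≤ 2 * (∫ w in ball y (4 * r), H w) / ‖z - y‖ := by
  have hHi : Integrable H := hc.integrable_of_hasCompactSupport hs
  have h1 : ∀ w, ‖(ch y r w : ℂ) * φ w * (z - w)⁻¹‖ ≤
      2 / ‖z - y‖ * (ball y (4 * r)).indicator H w := by
    intro w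
    have hzy : 0 < ‖z - y‖ := by linarith
    have hn : 0 ≤ 2 / ‖z - y‖ * (ball y (4 * r)).indicator H w :=
      mul_nonneg (by positivity) (Set.indicator_nonneg (fun z _ => h0 z) w)
    by_cases hw : ‖w - y‖ ≤ 2 * r
    · have e0 : w ∈ ball y (4 * r) := by
        rw [mem_ball, dist_eq_norm]
        linarith
      rw [Set.indicator_of_mem e0]
      have e1 : ‖z - y‖ / 2 ≤ ‖z - w‖ := by
        have := norm_sub_norm_le (z - y) (w - y)
        rw [sub_sub_sub_cancel_right] at this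
        linarith
      rw [norm_mul, norm_mul, norm_inv, Complex.norm_real, Real.norm_eq_abs,
        abs_of_nonneg (ch_nonneg y r w)]
      have e3 : ‖z - w‖⁻¹ ≤ 2 / ‖z - y‖ := by
        rw [inv_le_comm₀ (by linarith) (by positivity), inv_div]
        exact e1
      calc ch y r w * ‖φ w‖ * ‖z - w‖⁻¹ ≤ 1 * H w * (2 / ‖z - y‖) := by
            apply mul_le_mul _ e3 (by positivity) (by have := h0 w; positivity)
            exact mul_le_mul (ch_le_one y r w) (hφH w) (norm_nonneg _) zero_le_one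
        _ = 2 / ‖z - y‖ * H w := by ring
    · push Not at hw
      rw [ch_zero hr hw.le]
      simpa using hn
  unfold pot
  have h2 := norm_integral_le_of_norm_le
    ((hHi.indicator measurableSet_ball).const_mul (2 / ‖z - y‖)) (Eventually.of_forall h1)
  rw [integral_const_mul, integral_indicator measurableSet_ball] at h2
  refine h2.trans (le_of_eq ?_)
  ring

end

end Pool.Agent.Q177.TC
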